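import Pool.Agent.W192.HK.Parts

/-!
# The Moebius function on the ideals of a Dedekind domain (HK-MU)
-/

set_option autoImplicit false
set_option linter.unusedSectionVars false

namespace Pool.Agent.W822.HK

open Pool.Agent.W192.HK UniqueFactorizationMonoid

section gen

variable {A : Type} [CommMonoidWithZero A] [UniqueFactorizationMonoid A]
  [DecompositionMonoid A]

open Classical in
/-- the Moebius function -/
noncomputable def mob (β : A) : ℝ :=
  if Squarefree β then (-1) ^ (factors β).card else 0

theorem mob_le (β : A) : |mob β| ≤ 1 := by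
  unfold mob
  split_ifs with h
  · rw [abs_pow, abs_neg, abs_one, one_pow]
  · rw [abs_zero]; exact zero_le_one

theorem card_unit {u : A} (hu : IsUnit u) : (factors u).card = 0 := by
  rw [Multiset.card_eq_zero]
  apply Multiset.eq_zero_of_forall_notMem
  intro p hp
  have h1 : Irreducible p := irreducible_of_factor p hp
  have h2 : p ∣ u := dvd_of_mem_factors hp
  exact h1.not_isUnit (isUnit_of_dvd_unit h2 hu)

theorem mob_unit {u : A} (hu : IsUnit u) : mob u = 1 := by
  unfold mob
  rw [if_pos hu.squarefree, card_unit hu, pow_zero]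

theorem card_mul {p b : A} (hp : Irreducible p) (hb : b ≠ 0) :
    (factors (p * b)).card = (factors b).card + 1 := by
  have h1 : Multiset.Rel Associated (factors (p * b)) (p ::ₘ factors b) := by
    apply factors_unique
    · exact fun x hx => irreducible_of_factor x hx
    · intro x hx
      rcases Multiset.mem_cons.1 hx with h2 | h2
      · rw [h2]; exact hp
      · exact irreducible_of_factor x h2
    · rw [Multiset.prod_cons]
      exact (factors_prod (mul_ne_zero hp.ne_zero hb)).trans ((factors_prod hb).symm.mul_left p)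
  rw [Multiset.card_eq_card_of_rel h1, Multiset.card_cons]

theorem mob_mul {p b : A} (hp : Irreducible p) (hb : ¬ p ∣ b) : mob (p * b) = - mob b := by
  unfold mob
  have hb0 : b ≠ 0 := fun h => hb (h ▸ dvd_zero p)
  have h1 : Squarefree (p * b) ↔ Squarefree b := by
    rw [squarefree_mul_iff]
    constructor
    · exact fun h => h.2.2
    · exact fun h => ⟨(hp.isRelPrime_iff_not_dvd).2 hb, hp.squarefree, h⟩
  by_cases h : Squarefree b
  · rw [if_pos (h1.2 h), if_pos h, card_mul hp hb0, pow_succ, mul_neg_one]
  · rw [if_neg (fun h2 => h (h1.1 h2)), if_neg h, neg_zero]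

theorem mob_sq {p b : A} (hp : Irreducible p) (hb : p ∣ b) : mob (p * b) = 0 := by
  unfold mob
  rw [if_neg]
  intro h
  exact hp.not_isUnit (h p (mul_dvd_mul_left p hb))

theorem sum_mob [Finite Aˣ] (γ : A) (hγ : γ ≠ 0) (hu : ¬ IsUnit γ) :
    ∑ᶠ β ∈ {β : A | β ∣ γ}, mob β = 0 := by
  classical
  have := Fintype.ofFinite Aˣ
  have hfin : {β : A | β ∣ γ}.Finite := by
    have h0 := fintypeSubtypeDvd γ hγ
    exact @Set.toFinite A {β : A | β ∣ γ} (@Finite.of_fintype _ h0)
  rw [finsum_mem_eq_finite_toFinset_sum _ hfin]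
  set D := hfin.toFinset with hD
  have hmem : ∀ β, β ∈ D ↔ β ∣ γ := fun β => by rw [hD, Set.Finite.mem_toFinset]; rfl
  obtain ⟨p, hp, hpg⟩ := WfDvdMonoid.exists_irreducible_factor hu hγ
  have hpr : Prime p := hp.prime
  rw [← Finset.sum_filter_add_sum_filter_not D (fun β => p ∣ β)]
  have h1 : ∑ β ∈ D.filter (fun β => ¬ p ∣ β), - mob β = ∑ β ∈ D.filter (fun β => p ∣ β), mob β := by
    apply Finset.sum_of_injOn (fun β => p * β)
    · intro a _ b _ hab
      exact mul_left_cancel₀ hp.ne_zero hab
    · intro a ha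
      rw [Finset.mem_coe, Finset.mem_filter, hmem] at ha
      rw [Finset.mem_coe, Finset.mem_filter, hmem]
      refine ⟨?_, dvd_mul_right p a⟩
      obtain ⟨c, hc⟩ := ha.1
      have h2 : p ∣ a * c := hc ▸ hpg
      rcases hpr.dvd_or_dvd h2 with h3 | h3
      · exact absurd h3 ha.2
      · obtain ⟨e, he⟩ := h3
        exact ⟨e, by rw [hc, he]; exact (mul_left_comm a p e).trans (mul_assoc p a e).symm⟩
    · intro b hb hb2
      rw [Finset.mem_filter, hmem] at hb
      obtain ⟨e, he⟩ := hb.2
      rw [he]
      apply mob_sq hp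
      by_contra h3
      apply hb2
      refine ⟨e, ?_, he.symm⟩
      rw [Finset.mem_coe, Finset.mem_filter, hmem]
      exact ⟨(Dvd.intro_left p he.symm).trans hb.1, h3⟩
    · intro a ha
      rw [Finset.mem_filter] at ha
      exact (mob_mul hp ha.2).symm
  rw [← h1, Finset.sum_neg_distrib]
  ring

end gen

/-- MU -/
theorem h_mu (_h : H_BASIC) : H_MU := by
  intro R ω hR
  have : IsDedekindDomain R := hR.ded
  refine ⟨fun I => mob I, fun I => mob_le I, ?_, ?_⟩
  · exact mob_unit (Ideal.isUnit_iff.2 rfl)
  · intro I hI hI'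
    apply sum_mob I hI
    intro hu
    exact hI' (Ideal.isUnit_iff.1 hu)

end Pool.Agent.W822.HK
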